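import Pool.Agent.Run7.h710.TR.Cnt
import Pool.Agent.W93.PG7

/-!
# Sums of two distinct and almost equal odd primes: all the multiples of all the integers near those written by a transducer

The integers `v < a ^ k` are arbitrary, up to few exceptions; the transducer `T` reads the digits of `v` in base `a` and
writes the digits of `T(v)` in base `b` (definitions in `Pool.Agent.Run7.h710.TR.Defs`).

Method: if two words of `L` digits lead from the same state to the same state and different words are written, then the two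
parts of the exponential sum over the integers `T(v)` which belong to these words cancel in part at the places where the
frequency has a digit which is not extremal. From the starting files: the circle method for the representations in
windows (`Pool.Agent.Y885`, `Pool.Agent.W93.PG`), in a generic form: `Pool.Agent.N625.PT.t_windows`.

Definitions used (in `Pool.Agent.H560R3.GB`): `C₂`: the twin prime constant `∏_{p > 2} (1 - 1 / (p - 1) ^ 2)`; `sing m`:
the singular series `2 C₂ ∏_{p ∣ m, p > 2} (p - 1) / (p - 2)`.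

Examples: the bitwise conjunction or disjunction of `v` and `m v` (the carries are the states); the integer whose digit `i`
is `f(x_i, x_{i+1}, …, x_{i+r})`, where `x_i` are the digits of `v` and `f` is not constant (one-sided cellular automata).
-/

set_option autoImplicit false

namespace Pool.Agent.Results.MP_61161c_nt.TransducerMultiples

open Finset Pool.Agent.H560R3.GB Pool.Agent.Run7.h710.TR

/-- The number of the `p` such that `p` and `p' = m - p` are odd primes, `p < p'` and `p' - p ≤ H`. -/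
def N (m H : ℕ) : ℕ :=
  ((range m).filter (fun p => p.Prime ∧ p ≠ 2 ∧ (m - p).Prime ∧ m - p ≠ 2 ∧ p < m - p ∧ m - p ≤ p + H)).card

/-- For every `H` with `m / log ^ A m ≤ H ≤ m` there are distinct odd primes `p < p'` with `p + p' = m` and
`p' - p ≤ H`, and the number of these pairs is `sing m * H / (2 log ^ 2 m)` up to a relative error of at
most `ε`. -/
def Holds (ε : ℝ) (A m : ℕ) : Prop :=
  ∀ H : ℕ, H ≤ m → (m : ℝ) / Real.log m ^ A ≤ H →
    (∃ p p' : ℕ, p.Prime ∧ p'.Prime ∧ p ≠ 2 ∧ p' ≠ 2 ∧ p < p' ∧ p + p' = m ∧ p' - p ≤ H) ∧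
    |(N m H : ℝ) - sing m * H / (2 * Real.log m ^ 2)| ≤ ε * (sing m * H / (2 * Real.log m ^ 2))

lemma N_eq (m H : ℕ) (hm : 2 ∣ m) (hm6 : 6 ≤ m) (hH : H ≤ m) :
    N m H = Pool.Agent.W93.PG.cnt m ((m - H + 1) / 2 - 1) (m / 2 - 1) := by
  unfold N Pool.Agent.W93.PG.cnt
  congr 1
  ext p
  rw [mem_filter, mem_filter, mem_range, mem_Ioc]
  constructor
  · rintro ⟨h1, h2, h3, h4, h5, h6, h7⟩
    have := h2.two_le
    exact ⟨by omega, h2, h4⟩
  · rintro ⟨⟨h1, h2⟩, h3, h4⟩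
    refine ⟨by omega, h3, ?_, h4, by omega, by omega, by omega⟩
    rintro rfl
    have h5 : 2 ∣ m - 2 := by omega
    have h6 := (Nat.prime_dvd_prime_iff_eq Nat.prime_two h4).1 h5
    omega

lemma holds_of (A : ℕ) (ε : ℝ) (hε : 0 < ε) : ∃ m₀ : ℕ, ∀ m : ℕ, m₀ ≤ m → 2 ∣ m →
    Pool.Agent.W93.PG.WinP (min ε (1 / 2) / 2) (A + 1) m → Holds ε A m := by
  obtain ⟨n1, h1⟩ := Pool.Agent.H373R2.T7.ev_L' 4
  obtain ⟨n2, h2⟩ := Pool.Agent.H373R2.T7.ev_log' (A + 1) 1
  obtain ⟨ε', hε'⟩ : ∃ ε', ε' = min ε (1 / 2) := ⟨_, rfl⟩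
  have he0 : 0 < ε' := by rw [hε']; exact lt_min hε (by norm_num)
  have he1 : ε' ≤ ε := by rw [hε']; exact min_le_left _ _
  have he2 : ε' ≤ 1 / 2 := by rw [hε']; exact min_le_right _ _
  obtain ⟨n3, hn3⟩ := exists_nat_ge ((4 / ε') ^ 2)
  rw [← hε']
  refine ⟨n1 + n2 + n3 + 6, fun m hm hm2 hwin H hH hHm => ?_⟩
  have a1 := h1 m (by omega)
  have a2 := h2 m (by omega)
  have hm4 : (6 : ℝ) ≤ m := by exact_mod_cast (by omega : 6 ≤ m)
  have hm0 : (0 : ℝ) < m := by linarith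
  rw [one_mul] at a2
  obtain ⟨M, hM⟩ : ∃ M, M = Real.log (m : ℝ) := ⟨_, rfl⟩
  have hs := Pool.Agent.W93.GB.one_le_sing m
  obtain ⟨S, hS⟩ : ∃ S, S = sing m := ⟨_, rfl⟩
  unfold Pool.Agent.W93.PG.WinP at hwin
  rw [← hM] at a1 a2 hwin hHm ⊢
  rw [← hS] at hs hwin ⊢
  have hM1 : 1 ≤ M := by linarith
  have hM0 : 0 < M := by linarith
  have hmm : √(m : ℝ) * √(m : ℝ) = m := Real.mul_self_sqrt hm0.le
  have hsm0 : 0 < √(m : ℝ) := Real.sqrt_pos.2 hm0
  have hsmH : √(m : ℝ) ≤ m / M ^ (A + 1) := by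
    rw [le_div_iff₀ (by positivity)]
    calc √(m : ℝ) * M ^ (A + 1) ≤ √(m : ℝ) * √(m : ℝ) := mul_le_mul_of_nonneg_left a2 hsm0.le
      _ = m := hmm
  have h4e : 4 / ε' ≤ √(m : ℝ) := by
    apply Real.le_sqrt_of_sq_le
    refine hn3.trans ?_
    exact_mod_cast (by omega : n3 ≤ m)
  have h8 : 8 ≤ √(m : ℝ) := by
    refine le_trans ?_ h4e
    rw [le_div_iff₀ he0]
    linarith
  have hA1 : (m : ℝ) / M ^ A = m / M ^ (A + 1) * M := by rw [pow_succ]; field_simp
  have hbig : 4 * (m / M ^ (A + 1)) ≤ H := by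
    refine le_trans ?_ hHm
    rw [hA1, mul_comm]
    exact mul_le_mul_of_nonneg_left a1 (by positivity)
  obtain ⟨y₁, hy₁⟩ : ∃ y₁, y₁ = (m - H + 1) / 2 - 1 := ⟨_, rfl⟩
  obtain ⟨y₂, hy₂⟩ : ∃ y₂, y₂ = m / 2 - 1 := ⟨_, rfl⟩
  have hHr : (32 : ℝ) ≤ H := by linarith
  have hH32 : 32 ≤ H := by exact_mod_cast hHr
  have hN := N_eq m H hm2 (by omega) hH
  rw [← hy₁, ← hy₂] at hN
  have hy12 : y₁ < y₂ := by omega
  have hd1 : (y₂ : ℝ) - y₁ ≤ H / 2 := by
    have : 2 * y₂ ≤ 2 * y₁ + H := by omega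
    have : (2 : ℝ) * y₂ ≤ 2 * y₁ + H := by exact_mod_cast this
    linarith
  have hd2 : (H : ℝ) / 2 - 1 ≤ (y₂ : ℝ) - y₁ := by
    have : 2 * y₁ + H ≤ 2 * y₂ + 2 := by omega
    have : (2 : ℝ) * y₁ + H ≤ 2 * y₂ + 2 := by exact_mod_cast this
    linarith
  have hw := hwin y₁ y₂ hy12 (by omega) (by linarith)
  rw [← hN] at hw
  obtain ⟨Δ, hΔ⟩ : ∃ Δ, Δ = (y₂ : ℝ) - y₁ := ⟨_, rfl⟩
  rw [← hΔ] at hw hd1 hd2
  have hSM : 0 < S / M ^ 2 := by positivity
  have e1 : S * Δ / M ^ 2 = S / M ^ 2 * Δ := by ring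
  have e2 : S * H / (2 * M ^ 2) = S / M ^ 2 * (H / 2) := by field_simp
  rw [e1] at hw
  rw [e2]
  obtain ⟨T, hT⟩ : ∃ T, T = S / M ^ 2 := ⟨_, rfl⟩
  rw [← hT] at hSM hw ⊢
  have h1H : 1 ≤ ε' / 2 * (H / 2) := by
    have : 4 / ε' ≤ H := by linarith
    rw [div_le_iff₀ he0] at this
    linarith
  have hmain : |(N m H : ℝ) - T * (H / 2)| ≤ ε' * (T * (H / 2)) := by
    have f1 : |(N m H : ℝ) - T * (H / 2)| ≤ |(N m H : ℝ) - T * Δ| + |T * Δ - T * (H / 2)| := abs_sub_le _ _ _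
    have f2 : |T * Δ - T * (H / 2)| ≤ T := by
      rw [← mul_sub, abs_mul, abs_of_pos hSM]
      apply mul_le_of_le_one_right hSM.le
      rw [abs_le]
      constructor <;> linarith
    have f3 : T ≤ T * (ε' / 2 * (H / 2)) := le_mul_of_one_le_right hSM.le h1H
    have f4 : ε' / 2 * (T * Δ) ≤ ε' / 2 * (T * (H / 2)) := by
      apply mul_le_mul_of_nonneg_left _ (by linarith)
      exact mul_le_mul_of_nonneg_left hd1 hSM.le
    linarith
  have hTH : 0 < T * (H / 2) := by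
    have : (0 : ℝ) < H := by linarith
    positivity
  refine ⟨?_, hmain.trans (mul_le_mul_of_nonneg_right he1 hTH.le)⟩
  have h7 : (0 : ℝ) < N m H := by
    rw [abs_le] at hmain
    nlinarith [hmain.1]
  have h8 : 0 < N m H := by exact_mod_cast h7
  unfold N at h8
  rw [card_pos] at h8
  obtain ⟨p, hp⟩ := h8
  rw [mem_filter, mem_range] at hp
  obtain ⟨q0, q1, q2, q3, q4, q5, q6⟩ := hp
  exact ⟨p, m - p, q1, q3, q2, q4, q5, by omega, by omega⟩

open Classical in
/-- Let `a`, `b ≥ 2`, `L ≥ 1`, `κ ≠ 0`, `B`, `J`, `W`, `A`, `U` and `ε > 0` be fixed and let `k` be large. Let an arbitrary transducer be given which reads digits `< a` and writes digits `< b` (with finitely or infinitely many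
states) such that from every state two words of `L` digits lead to the same state, while different words are written; let it
begin in an arbitrary state `s` and read from the left or from the right,
and let `c` be an arbitrary integer with `|c| ≤ B b ^ k` (`k` must be large in terms of the fixed numbers only). Then all the
`v < a ^ k`, with at most `a ^ k / k ^ U` exceptions, have the following property, where `v'` is the integer which is written
when `v` is read: for ALL the integers `q ≥ 1` at a distance of at most `k ^ W` from `c + κ v'` and ALL the factors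
`1 ≤ h ≤ k ^ J` for which `m = h q` is even, for every `H` with
`m / log ^ A m ≤ H ≤ m` there are distinct odd primes `p < p'` with `p + p' = m` and `p' - p ≤ H`, and the number of these
representations is as predicted, up to a relative error of at most `ε`. -/
theorem result (a b L : ℕ) (hb : 2 ≤ b) (hL : 1 ≤ L) (κ : ℤ) (hκ : κ ≠ 0) (B J W A U : ℕ) (ε : ℝ) (hε : 0 < ε) :
    ∃ k₀ : ℕ, ∀ k : ℕ, k₀ ≤ k → ∀ (S : Type) (δ : S → ℕ → S) (o : S → ℕ → ℕ), Transducer a b L δ o →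
      ∀ (left : Bool) (s : S) (c : ℤ), |c| ≤ B * (b : ℤ) ^ k →
      (((range (a ^ k)).filter fun v => ¬ ∀ q : ℕ, 1 ≤ q → |(q : ℤ) - (c + κ * (image a b δ o left k s v : ℕ))| ≤ (k : ℤ) ^ W →
        ∀ h : ℕ, 1 ≤ h → h ≤ k ^ J → Even (h * q) → Holds ε A (h * q)).card : ℝ) ≤ (a : ℝ) ^ k / (k : ℝ) ^ U := by
  obtain ⟨m₀, hm⟩ := holds_of A ε hε
  have hm' : ∀ m : ℕ, m₀ ≤ m → 2 ∣ m → Pool.Agent.W93.PG.WinP (min ε (1 / 2) / 2) (A + 1) m → (fun m => Holds ε A m) m := hm
  obtain ⟨k₀, hmain⟩ := Pool.Agent.N625.PT.t_windows (tr_tcls a b L hb hL κ hκ) B J W (A + 1) U m₀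
    (min ε (1 / 2) / 2) (div_pos (lt_min hε (by norm_num)) (by norm_num))
    (fun m => Holds ε A m) hm'
  refine ⟨k₀, fun k hk S δ o hT left s c hc => ?_⟩
  refine exceptions hb hT left k s (fun v => ∀ q : ℕ, 1 ≤ q → |(q : ℤ) - (c + κ * (v : ℕ))| ≤ (k : ℤ) ^ W →
    ∀ h : ℕ, 1 ≤ h → h ≤ k ^ J → Even (h * q) → Holds ε A (h * q)) U ?_
  refine hmain k hk _ ⟨S, δ, o, left, s, hT, rfl⟩ c hc (fun v => ∀ q : ℕ, 1 ≤ q → |(q : ℤ) - (c + κ * (v : ℕ))| ≤ (k : ℤ) ^ W →
    ∀ h : ℕ, 1 ≤ h → h ≤ k ^ J → Even (h * q) → Holds ε A (h * q)) ?_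
  intro v hv
  push Not at hv
  obtain ⟨q, hq1, hq2, h, hh1, hh2, hev, hbad⟩ := hv
  refine ⟨h, hh1, hh2, (q : ℤ) - (c + κ * v), hq2, ?_⟩
  have e : (h : ℤ) * (c + ((q : ℤ) - (c + κ * v)) + κ * v) = ((h * q : ℕ) : ℤ) := by
    push_cast
    ring
  rw [e]
  refine ⟨by exact_mod_cast Nat.mul_pos hh1 hq1, by exact_mod_cast hev.two_dvd, ?_⟩
  rw [Int.toNat_natCast]
  exact hbad

end Pool.Agent.Results.MP_61161c_nt.TransducerMultiples
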