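import Pool.Agent.Run7.h844.RP.K.K61161

/-!
# Sums of two distinct and almost equal odd primes: all even integers near the values of generalised polynomials at primes

Definitions used (in `Pool.Agent.H560R3.GB`): `C₂`: the twin prime constant `∏_{p > 2} (1 - 1 / (p - 1) ^ 2)`; `sing m`:
the singular series `2 C₂ ∏_{p ∣ m, p > 2} (p - 1) / (p - 2)`.

Method: exponential sums over primes with the phase of a generalised polynomial: derivative bounds uniform in the
coefficients, van der Corput differencing of all orders, bilinear sums, Vaughan's identity (after `Pool.Agent.H895R3.NK`,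
`Pool.Agent.H373R2.T7`); a discrete Fejér kernel for the passage from real numbers to their integer parts, and a kernel
estimate for the concentration on short intervals which needs only the large frequencies (library
`Pool.Agent.Run7.h844.RP`, after `Pool.Agent.N384.MQ`, `Pool.Agent.N193.PS`). The passage from such exponential sums to representations in windows is
from the starting files (`Pool.Agent.W93.PG`, `Pool.Agent.TH872`), in a generic form: `Pool.Agent.N625.DY.I`.
-/

set_option autoImplicit false

namespace Pool.Agent.Results.MP_61161c_nt.ValuesAtPrimes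

open Finset Pool.Agent.H560R3.GB

/-- The generalised polynomial `∑ a x * t ^ x`, `x ∈ F`, with real exponents and coefficients. -/
noncomputable def genPoly (F : Finset ℝ) (a : ℝ → ℝ) (t : ℝ) : ℝ := ∑ x ∈ F, a x * t ^ x

/-- `c` is the largest exponent; it is positive and not an integer, and its coefficient is not zero. -/
def Leading (F : Finset ℝ) (a : ℝ → ℝ) (c : ℝ) : Prop :=
  c ∈ F ∧ (∀ x ∈ F, x ≤ c) ∧ 0 < c ∧ (∀ m : ℕ, c ≠ m) ∧ a c ≠ 0

/-- The number of the `p` such that `p` and `p' = m - p` are odd primes, `p < p'` and `p' - p ≤ H`. -/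
def N (m H : ℕ) : ℕ :=
  ((range m).filter (fun p => p.Prime ∧ p ≠ 2 ∧ (m - p).Prime ∧ m - p ≠ 2 ∧ p < m - p ∧ m - p ≤ p + H)).card

/-- For every `H` with `m / log ^ A m ≤ H ≤ m` there are distinct odd primes `p < p'` with `p + p' = m` and
`p' - p ≤ H`, and the number of these pairs is `sing m * H / (2 log ^ 2 m)` up to a relative error of at
most `ε`. -/
def Holds (ε : ℝ) (A m : ℕ) : Prop :=
  ∀ H : ℕ, H ≤ m → (m : ℝ) / Real.log m ^ A ≤ H →
    (∃ p p' : ℕ, p.Prime ∧ p'.Prime ∧ p ≠ 2 ∧ p' ≠ 2 ∧ p < p' ∧ p + p' = m ∧ p' - p ≤ H) ∧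
    |(N m H : ℝ) - sing m * H / (2 * Real.log m ^ 2)| ≤ ε * (sing m * H / (2 * Real.log m ^ 2))

/-- `Holds` for all the even integers `m > 0` at a distance of at most `R` from the real number `y`. -/
def Near (ε : ℝ) (A : ℕ) (R y : ℝ) : Prop := ∀ m : ℕ, 0 < m → Even m → |(m : ℝ) - y| ≤ R → Holds ε A m

open Classical in
/-- Let `f` be a generalised polynomial whose largest exponent `c` is positive and not an integer, and let `A`, `W`, `U` and
`ε > 0` be fixed. If `X` is large and `z` is any real number with `|z| ≤ X ^ c`, then all the primes `X < p ≤ 2 X`, with at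
most `X / log ^ U X` exceptions, have the following property: ALL the even integers `m > 0` at a distance of at most
`log ^ W X` from `f(p) + z` are sums of two distinct odd primes `q < q'`, even with `q' - q ≤ H` for every `H` with
`m / log ^ A m ≤ H ≤ m`, and the number of these representations is as predicted, up to a relative error of at most `ε`. -/
theorem result (F : Finset ℝ) (a : ℝ → ℝ) (c : ℝ) (hF : Leading F a c) (A W U : ℕ) (ε : ℝ) (hε : 0 < ε) :
    ∃ X₀ : ℕ, ∀ X : ℕ, X₀ ≤ X → ∀ z : ℝ, |z| ≤ (X : ℝ) ^ c →
      (((Ioc X (2 * X)).filter fun p : ℕ => p.Prime ∧ ¬ Near ε A (Real.log X ^ W) (genPoly F a p + z)).card : ℝ) ≤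
        X / Real.log X ^ U :=
  Pool.Agent.Run7.h844.RP.K61161.keyP F c hF.1 hF.2.2.2.1 hF.2.2.1 hF.2.1 a hF.2.2.2.2 A W U ε hε

end Pool.Agent.Results.MP_61161c_nt.ValuesAtPrimes
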