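import Pool.Agent.Run7.h927.CG.Mono
import Pool.Agent.Results.MP_61161c_nt.DigitPermutations

/-!
# Sums of two distinct and almost equal odd primes: the multiples of the integers whose digits label walks in a graph

All the even multiples of all the integers near a random integer. The random integers are those whose digits are the labels of a walk between two vertices of a graph, for example of the
Cayley graph of a group: then these are the integers whose digits spell a given element of the group. Such a set can
contain as few as `N ^ ε` integers below `N`, and in general it is not automatic.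

Method: the exponential sum over the walks is dominated by the iterates of the adjacency operator of the graph, whose
square is diminished on the diagonal at the places where the frequency has a digit which is not extremal; the norms of
these operators on the cyclic space of a vertex are controlled by the number of the closed walks (starting files,
`Pool.Agent.N625.GW`, helper625). From the starting files: the circle method for the representations in windows, for all the multiples of random integers
with a thin large spectrum (`Pool.Agent.N625.PT.t_windows`). New here: the combination, and the passage from small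
exponential sums to thin large spectra for these laws (`Pool.Agent.Run7.h927.CG`).

Definitions used (in `Pool.Agent.H560R3.GB`): `C₂`: the twin prime constant `∏_{p > 2} (1 - 1 / (p - 1) ^ 2)`; `sing m`:
the singular series `2 C₂ ∏_{p ∣ m, p > 2} (p - 1) / (p - 2)`.
-/

set_option autoImplicit false

open Finset Pool.Agent.H560R3.GB

namespace Pool.Agent.Results.MP_61161c_nt.WalkMultiples

/-- The digits `a < b` act on the set `X` of the vertices: an edge with the label `a` leads from `x` to `y` if
`δ x a = some y` (at most one edge with the label `a` starts at `x`). The number of the edges from `x` to `y` equals the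
number of the edges from `y` to `x`, and at least two edges start at every vertex. The graph may be infinite. -/
structure Graph {X : Type} (b : ℕ) (δ : X → ℕ → Option X) : Prop where
  symm : ∀ x y : X, {a : ℕ | a < b ∧ δ x a = some y}.ncard = {a : ℕ | a < b ∧ δ y a = some x}.ncard
  two : ∀ x : X, ∃ a a' : ℕ, a < a' ∧ a' < b ∧ (δ x a).isSome ∧ (δ x a').isSome

open Classical in
/-- The integers `v < b ^ k` whose `k` digits in base `b`, from the most significant to the least significant one (the
digit number `i`, `0 ≤ i < k`, from the left is `v / b ^ (k - 1 - i) % b`), are the labels of a walk from `x` to `y`. -/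
noncomputable def walks {X : Type} (b : ℕ) (δ : X → ℕ → Option X) (k : ℕ) (x y : X) : Finset ℕ :=
  (range (b ^ k)).filter fun v =>
    ((List.range k).map fun i => v / b ^ (k - 1 - i) % b).foldl (fun s a => s.bind fun z => δ z a) (some x) = some y

/-- The number of the `p` such that `p` and `p' = m - p` are odd primes, `p < p'` and `p' - p ≤ H`. -/
def N (m H : ℕ) : ℕ :=
  ((range m).filter (fun p => p.Prime ∧ p ≠ 2 ∧ (m - p).Prime ∧ m - p ≠ 2 ∧ p < m - p ∧ m - p ≤ p + H)).card

/-- For every `H` with `m / log ^ A m ≤ H ≤ m` there are distinct odd primes `p < p'` with `p + p' = m` and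
`p' - p ≤ H`, and the number of these pairs is `sing m * H / (2 log ^ 2 m)` up to a relative error of at
most `ε`. -/
def Holds (ε : ℝ) (A m : ℕ) : Prop :=
  ∀ H : ℕ, H ≤ m → (m : ℝ) / Real.log m ^ A ≤ H →
    (∃ p p' : ℕ, p.Prime ∧ p'.Prime ∧ p ≠ 2 ∧ p' ≠ 2 ∧ p < p' ∧ p + p' = m ∧ p' - p ≤ H) ∧
    |(N m H : ℝ) - sing m * H / (2 * Real.log m ^ 2)| ≤ ε * (sing m * H / (2 * Real.log m ^ 2))

open Classical in
/-- Let `x₀` be a vertex such that the number of the closed walks of length `2n` at `x₀` is at most `ρ ^ (2n)` for all `n`, and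
let `κ ≠ 0`, `B`, `D`, `J`, `A`, `W`, `U` and `ε > 0` be fixed. Let `k` be large, let `y` be any vertex such that there are at
least `ρ ^ k / k ^ D` walks of length `k` from `x₀` to `y`, and let `c` be an arbitrary integer with `|c| ≤ B b ^ k`. Then
all the integers `v` whose `k` digits are the labels of a walk from `x₀` to `y`, with the exception of a proportion of at
most `1 / k ^ U` of them, have the following property: ALL the even multiples `m ≤ k ^ J q` of
ALL the integers `q ≥ 1` at a distance of at most `k ^ W` from `c + κ v` are sums of two distinct odd primes `p < p'`, even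
with `p' - p ≤ H` for every `H` with `m / log ^ A m ≤ H ≤ m`, and the number of these representations is as predicted, up to
a relative error of at most `ε`.

(For a group of polynomial growth, a free group, or any group with the property of rapid decay, there are at least
`ρ ^ k / k ^ D` closed walks of every even length `k` in the Cayley graph, where `ρ` is its spectral radius.) -/
theorem result {X : Type} (b : ℕ) (δ : X → ℕ → Option X) (hG : Graph b δ) (x₀ : X) (ρ : ℝ) (hρ : 0 < ρ)
    (hR : ∀ n : ℕ, ((walks b δ (2 * n) x₀ x₀).card : ℝ) ≤ ρ ^ (2 * n)) (κ : ℤ) (hκ : κ ≠ 0) (B D J A W U : ℕ)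
    (ε : ℝ) (hε : 0 < ε) :
    ∃ k₀ : ℕ, ∀ k : ℕ, k₀ ≤ k → ∀ y : X, ρ ^ k / (k : ℝ) ^ D ≤ (walks b δ k x₀ y).card →
      ∀ c : ℤ, |c| ≤ B * (b : ℤ) ^ k →
      (((walks b δ k x₀ y).filter fun v => ¬ ∀ q : ℕ, 1 ≤ q → |(q : ℤ) - (c + κ * (v : ℕ))| ≤ (k : ℤ) ^ W →
        ∀ m : ℕ, 0 < m → Even m → q ∣ m → m ≤ k ^ J * q → Holds ε A m).card : ℝ) ≤ (walks b δ k x₀ y).card / (k : ℝ) ^ U := by
  obtain ⟨m₀, hm⟩ := MP_61161c_nt.DigitPermutations.holds_of A ε hε
  obtain ⟨k₀, h0⟩ := Pool.Agent.N625.PT.t_windows (Pool.Agent.Run7.h927.CG.tcls (Pool.Agent.Run7.h927.CG.w_good (δ := δ) ⟨hG.symm, hG.two⟩ x₀ ρ hρ hR D) κ hκ) B J W (A + 1) U m₀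
    (min ε (1 / 2) / 2) (div_pos (lt_min hε (by norm_num)) (by norm_num)) (Holds ε A) hm
  refine ⟨k₀ + 1, fun k hk y hy c hc => ?_⟩
  have hk1 : (0 : ℝ) < (k : ℝ) ^ D := by
    have : (0 : ℝ) < k := by exact_mod_cast (by omega : 0 < k)
    positivity
  have hy' : ρ ^ k ≤ (k : ℝ) ^ D * (walks b δ k x₀ y).card := by
    rw [div_le_iff₀ hk1, mul_comm] at hy
    exact hy
  have h1 := Pool.Agent.N625.GW.w_count k x₀ y ρ hρ D hy'
    (fun v => ∀ q : ℕ, 1 ≤ q → |(q : ℤ) - (c + κ * (v : ℕ))| ≤ (k : ℤ) ^ W →
        ∀ m : ℕ, 0 < m → Even m → q ∣ m → m ≤ k ^ J * q → Holds ε A m)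
    (1 / (k : ℝ) ^ U) (fun p hp => h0 k (by omega) p hp c hc (fun v : ℕ => ∀ q : ℕ, 1 ≤ q → |(q : ℤ) - (c + κ * (v : ℕ))| ≤ (k : ℤ) ^ W →
        ∀ m : ℕ, 0 < m → Even m → q ∣ m → m ≤ k ^ J * q → Holds ε A m)
    (by
      intro v hv
      push Not at hv
      obtain ⟨q, hq1, hq2, n, hn0, hev, ⟨h, rfl⟩, hn2, hbad⟩ := hv
      have hh1 : 1 ≤ h := by
        rcases Nat.eq_zero_or_pos h with rfl | h0
        · simp at hn0
        · exact h0
      have hh2 : h ≤ k ^ J := by
        rw [mul_comm] at hn2
        exact Nat.le_of_mul_le_mul_right hn2 hq1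
      refine ⟨h, hh1, hh2, (q : ℤ) - (c + κ * v), hq2, ?_⟩
      have e : (h : ℤ) * (c + ((q : ℤ) - (c + κ * v)) + κ * v) = ((q * h : ℕ) : ℤ) := by
        push_cast
        ring
      rw [e]
      refine ⟨by exact_mod_cast hn0, by exact_mod_cast hev.two_dvd, ?_⟩
      rw [Int.toNat_natCast]
      exact hbad))
  rw [mul_one_div] at h1
  exact h1

end Pool.Agent.Results.MP_61161c_nt.WalkMultiples
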