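import Pool.Agent.Run7.h927.CG.Mono
import Pool.Agent.Results.MP_61161c_nt.DigitPermutations

/-!
# Sums of two distinct and almost equal odd primes: the multiples of random integers (nested words, random fields of digits)

All the even multiples of all the integers near a random integer. The random integer `v` has `k` digits in base `b`, and its digits (1) form a correctly nested word over an alphabet of
opening, closing and neutral digits (a context-free language which is not regular), or (2) form a Markov random field on an
arbitrary graph of positions of bounded degree.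

Method: the exponential sums of these two kinds of distributions are small at the frequencies with many good positions
(starting files `Pool.Agent.N625.DY` of helper625, `Pool.Agent.N213.GF` of helper213; put into the form needed here in
`Pool.Agent.Run7.h927.CG`), hence the random integers have a thin large spectrum. From the starting files: the circle method for the representations in windows, for all the multiples of random integers
with a thin large spectrum (`Pool.Agent.N625.PT.t_windows`). New here: the combination, and the passage from small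
exponential sums to thin large spectra for these laws (`Pool.Agent.Run7.h927.CG`).
(For random fields and without multiples: starting file `RandomFieldNeighbourhoods`.)

Examples of random fields, proved in `Pool.Agent.N213.GF.E` and `Pool.Agent.N213.GF.F`: the uniform distribution on the
solutions of local constraints with flexible digits on a graph of positions with degrees at most `Δ`, with
`η = 1 / b ^ (Δ + 1)` (`unif_field`); in particular the integers whose nonzero digits form an independent set of the graph
(`indep_local`), and, for `b ≥ Δ + 2`, the integers whose digits are a proper colouring of the graph (`colour_local`).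

`∑ v ∈ range (b ^ k), (if P v then 0 else p v)` is the probability that the random integer `v < b ^ k` with the
distribution `p` does not have the property `P`.

Definitions used (in `Pool.Agent.H560R3.GB`): `C₂`: the twin prime constant `∏_{p > 2} (1 - 1 / (p - 1) ^ 2)`; `sing m`:
the singular series `2 C₂ ∏_{p ∣ m, p > 2} (p - 1) / (p - 2)`.
-/

set_option autoImplicit false

open Finset Pool.Agent.H560R3.GB

namespace Pool.Agent.Results.MP_61161c_nt.WordFieldMultiples

/-- `P` is a set of pairs of an opening digit and a closing digit which match each other, `E` is a set of neutral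
digits; the digits are smaller than `b`, no digit plays two of the three roles, and there is at least one pair.
(An opening digit can match several closing digits, and conversely.) -/
structure Alphabet (b : ℕ) (P : Finset (ℕ × ℕ)) (E : Finset ℕ) : Prop where
  lt : ∀ p ∈ P, p.1 < b ∧ p.2 < b
  ne : ∀ p ∈ P, ∀ p' ∈ P, p.1 ≠ p'.2
  neutral : ∀ a ∈ E, a < b ∧ ∀ p ∈ P, a ≠ p.1 ∧ a ≠ p.2
  nonempty : P.Nonempty

/-- The correctly nested words: the empty word; a neutral digit followed by a correctly nested word; and `o u c w`,
where `u` and `w` are correctly nested words and the opening digit `o` matches the closing digit `c`. -/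
inductive Balanced (P : Finset (ℕ × ℕ)) (E : Finset ℕ) : List ℕ → Prop
  | nil : Balanced P E []
  | neutral (a : ℕ) (w : List ℕ) : a ∈ E → Balanced P E w → Balanced P E (a :: w)
  | pair (o c : ℕ) (u w : List ℕ) : (o, c) ∈ P → Balanced P E u → Balanced P E w → Balanced P E (o :: (u ++ c :: w))

open Classical in
/-- The integers `v < b ^ k` whose `k` digits in base `b`, from the most significant to the least significant one (the
digit number `i`, `0 ≤ i < k`, from the left is `v / b ^ (k - 1 - i) % b`), form a correctly nested word. -/
noncomputable def brackets (b : ℕ) (P : Finset (ℕ × ℕ)) (E : Finset ℕ) (k : ℕ) : Finset ℕ :=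
  (range (b ^ k)).filter fun v => Balanced P E ((List.range k).map fun i => v / b ^ (k - 1 - i) % b)

/-- The digit of `v` at the position `i` in base `b` (the position `0` is the least significant one). -/
def dig (b v i : ℕ) : ℕ := v / b ^ i % b

/-- The integer which has the digits of `v` at the positions in `S` and the digits of `w` at the other positions below `k`. -/
def splice (b k : ℕ) (S : Finset ℕ) (v w : ℕ) : ℕ := ∑ i ∈ range k, (if i ∈ S then dig b v i else dig b w i) * b ^ i

/-- `v` and `w` have the same digits outside the set `S` of positions. -/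
def Off (b : ℕ) (S : Finset ℕ) (v w : ℕ) : Prop := ∀ i, i ∉ S → dig b v i = dig b w i

open Classical in
/-- The closed neighbourhood of the position `i` in the graph `A` on the positions `0, …, k - 1`. -/
noncomputable def nb (k : ℕ) (A : ℕ → ℕ → Prop) (i : ℕ) : Finset ℕ := (range k).filter fun j => j = i ∨ A i j

open Classical in
/-- The total weight of the integers below `b ^ k` which have the same digits as `v` outside `S`. -/
noncomputable def mass (b k : ℕ) (p : ℕ → ℝ) (S : Finset ℕ) (v : ℕ) : ℝ :=
  ∑ w ∈ (range (b ^ k)).filter (fun w => Off b S w v), p w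

/-- The digits of a random integer `v < b ^ k` (with the probabilities `p v`) form a Markov random field on a graph `A` of
positions with degrees at most `Δ` (the Markov property: for every set `S` of positions and all `v`, `w` which have the same
digits at the positions outside `S` adjacent to `S`, the product `p v * p w` does not change if `v` and `w` exchange their
digits in `S`), and each digit is flexible: for every `v` with `p v ≠ 0` and every position `i`, there are `x` and `y` which
have the same digits as `v` outside the closed neighbourhood of `i`, which differ from each other exactly at the position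
`i`, and whose conditional probabilities, given the digits outside this neighbourhood, are at least `η`. -/
structure Field (b k Δ : ℕ) (η : ℝ) (A : ℕ → ℕ → Prop) (p : ℕ → ℝ) : Prop where
  symm : ∀ i j, A i j → A j i
  degree : ∀ i < k, (nb k A i).card ≤ Δ + 1
  nonneg : ∀ v, 0 ≤ p v
  sum : ∑ v ∈ range (b ^ k), p v = 1
  markov : ∀ S : Finset ℕ, ∀ v < b ^ k, ∀ w < b ^ k, (∀ i ∈ S, ∀ j < k, j ∉ S → A i j → dig b v j = dig b w j) →
    p v * p w = p (splice b k S v w) * p (splice b k S w v)
  flexible : ∀ v < b ^ k, p v ≠ 0 → ∀ i < k, ∃ x < b ^ k, ∃ y < b ^ k, Off b (nb k A i) x v ∧ Off b {i} y x ∧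
    dig b y i ≠ dig b x i ∧ η * mass b k p (nb k A i) v ≤ p x ∧ η * mass b k p (nb k A i) v ≤ p y

open Classical in
/-- The uniform distribution on the finite set `S`. -/
noncomputable def uniform (S : Finset ℕ) (v : ℕ) : ℝ := if v ∈ S then 1 / (S.card : ℝ) else 0

/-- The families of distributions of a random integer `v < b ^ k` which are considered here (`𝓕 k p` means that the
distribution `p` belongs to the family).
* `words`: the uniform distribution on the integers whose `k` digits form a correctly nested word;
* `fields`: the digits form a Markov random field with flexible digits, on any graph of positions with degrees at most `Δ`. -/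
inductive Law (b : ℕ) : (ℕ → (ℕ → ℝ) → Prop) → Prop
  | words (P : Finset (ℕ × ℕ)) (E : Finset ℕ) : Alphabet b P E →
      Law b fun k p => (brackets b P E k).Nonempty ∧ p = uniform (brackets b P E k)
  | fields (Δ : ℕ) (η : ℝ) : 2 ≤ b → 0 < η → Law b fun k p => ∃ A : ℕ → ℕ → Prop, Field b k Δ η A p

/-- The number of the `p` such that `p` and `p' = m - p` are odd primes, `p < p'` and `p' - p ≤ H`. -/
def N (m H : ℕ) : ℕ :=
  ((range m).filter (fun p => p.Prime ∧ p ≠ 2 ∧ (m - p).Prime ∧ m - p ≠ 2 ∧ p < m - p ∧ m - p ≤ p + H)).card

/-- For every `H` with `m / log ^ A m ≤ H ≤ m` there are distinct odd primes `p < p'` with `p + p' = m` and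
`p' - p ≤ H`, and the number of these pairs is `sing m * H / (2 log ^ 2 m)` up to a relative error of at
most `ε`. -/
def Holds (ε : ℝ) (A m : ℕ) : Prop :=
  ∀ H : ℕ, H ≤ m → (m : ℝ) / Real.log m ^ A ≤ H →
    (∃ p p' : ℕ, p.Prime ∧ p'.Prime ∧ p ≠ 2 ∧ p' ≠ 2 ∧ p < p' ∧ p + p' = m ∧ p' - p ≤ H) ∧
    |(N m H : ℝ) - sing m * H / (2 * Real.log m ^ 2)| ≤ ε * (sing m * H / (2 * Real.log m ^ 2))

lemma bal_iff (P : Finset (ℕ × ℕ)) (E : Finset ℕ) (w : List ℕ) : Balanced P E w ↔ Pool.Agent.N625.DY.Balanced P E w := by
  constructor
  · intro h
    induction h with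
    | nil => exact .nil
    | neutral a w h1 _ ih => exact .neutral a w h1 ih
    | pair o c u w h1 _ _ ih1 ih2 => exact .pair o c u w h1 ih1 ih2
  · intro h
    induction h with
    | nil => exact .nil
    | neutral a w h1 _ ih => exact .neutral a w h1 ih
    | pair o c u w h1 _ _ ih1 ih2 => exact .pair o c u w h1 ih1 ih2

lemma brackets_eq (b : ℕ) (P : Finset (ℕ × ℕ)) (E : Finset ℕ) (k : ℕ) :
    brackets b P E k = Pool.Agent.N625.DY.brackets b P E k := by
  classical
  unfold brackets Pool.Agent.N625.DY.brackets Pool.Agent.N625.DY.word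
  ext v
  rw [mem_filter, mem_filter, bal_iff]

lemma field_conv {b k Δ : ℕ} {η : ℝ} {A : ℕ → ℕ → Prop} {p : ℕ → ℝ} (h : Field b k Δ η A p) :
    Pool.Agent.N213.GF.Field b k Δ η A p :=
  ⟨h.symm, h.degree, h.nonneg, h.sum, h.markov, h.flexible⟩

theorem good_of {b : ℕ} {𝓕 : ℕ → (ℕ → ℝ) → Prop} (h : Law b 𝓕) : ∃ M, Pool.Agent.Run7.h927.CG.Good b M 𝓕 := by
  rcases h with ⟨P, E, hA⟩ | ⟨Δ, η, hb, hη⟩
  · have hA' : Pool.Agent.N625.DY.Alphabet b P E := ⟨hA.lt, hA.ne, hA.neutral, hA.nonempty⟩
    refine ⟨_, (Pool.Agent.Run7.h927.CG.br_good hA').mono ?_⟩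
    rintro k p ⟨h1, rfl⟩
    rw [brackets_eq] at h1 ⊢
    refine ⟨?_, rfl⟩
    by_contra h2
    rw [Pool.Agent.N625.DY.br_empty k h2] at h1
    exact Finset.not_nonempty_empty h1
  · refine ⟨_, (Pool.Agent.Run7.h927.CG.gf_good b Δ η hb hη).mono ?_⟩
    rintro k p ⟨A, hF⟩
    exact ⟨A, field_conv hF⟩

theorem tcls_of {b : ℕ} {𝓕 : ℕ → (ℕ → ℝ) → Prop} (h : Law b 𝓕) (κ : ℤ) (hκ : κ ≠ 0) : Pool.Agent.N625.PT.TCls b κ 𝓕 := by
  obtain ⟨M, hM⟩ := good_of h
  exact Pool.Agent.Run7.h927.CG.tcls hM κ hκ

open Classical in
/-- Let `𝓕` be one of the families of distributions in `Law b` (correctly nested words over a given alphabet of digits; Markov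
random fields with flexible digits on graphs of positions of bounded degree), and let `κ ≠ 0`, `B`, `J`, `A`, `W`, `U` and
`ε > 0` be fixed. Let `k` be large, let `v < b ^ k` be a random integer whose distribution `p` belongs to the family, and let
`c` be an arbitrary integer with `|c| ≤ B b ^ k`. With a probability of at least `1 - 1 / k ^ U`,
ALL the even multiples `m ≤ k ^ J q` of
ALL the integers `q ≥ 1` at a distance of at most `k ^ W` from `c + κ v` are sums of two distinct odd primes `p < p'`, even
with `p' - p ≤ H` for every `H` with `m / log ^ A m ≤ H ≤ m`, and the number of these representations is as predicted, up to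
a relative error of at most `ε`. -/
theorem result (b : ℕ) (𝓕 : ℕ → (ℕ → ℝ) → Prop) (hF : Law b 𝓕) (κ : ℤ) (hκ : κ ≠ 0) (B J A W U : ℕ)
    (ε : ℝ) (hε : 0 < ε) :
    ∃ k₀ : ℕ, ∀ k : ℕ, k₀ ≤ k → ∀ p : ℕ → ℝ, 𝓕 k p → ∀ c : ℤ, |c| ≤ B * (b : ℤ) ^ k →
      ∑ v ∈ range (b ^ k), (if ∀ q : ℕ, 1 ≤ q → |(q : ℤ) - (c + κ * (v : ℕ))| ≤ (k : ℤ) ^ W →
        ∀ m : ℕ, 0 < m → Even m → q ∣ m → m ≤ k ^ J * q → Holds ε A m then 0 else p v) ≤ 1 / (k : ℝ) ^ U := by
  obtain ⟨m₀, hm⟩ := MP_61161c_nt.DigitPermutations.holds_of A ε hε
  obtain ⟨k₀, h0⟩ := Pool.Agent.N625.PT.t_windows (tcls_of hF κ hκ) B J W (A + 1) U m₀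
    (min ε (1 / 2) / 2) (div_pos (lt_min hε (by norm_num)) (by norm_num)) (Holds ε A) hm
  exact ⟨k₀, fun k hk p hp c hc => h0 k hk p hp c hc (fun v : ℕ => ∀ q : ℕ, 1 ≤ q → |(q : ℤ) - (c + κ * (v : ℕ))| ≤ (k : ℤ) ^ W →
        ∀ m : ℕ, 0 < m → Even m → q ∣ m → m ≤ k ^ J * q → Holds ε A m)
    (by
      intro v hv
      push Not at hv
      obtain ⟨q, hq1, hq2, n, hn0, hev, ⟨h, rfl⟩, hn2, hbad⟩ := hv
      have hh1 : 1 ≤ h := by
        rcases Nat.eq_zero_or_pos h with rfl | h0
        · simp at hn0
        · exact h0
      have hh2 : h ≤ k ^ J := by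
        rw [mul_comm] at hn2
        exact Nat.le_of_mul_le_mul_right hn2 hq1
      refine ⟨h, hh1, hh2, (q : ℤ) - (c + κ * v), hq2, ?_⟩
      have e : (h : ℤ) * (c + ((q : ℤ) - (c + κ * v)) + κ * v) = ((q * h : ℕ) : ℤ) := by
        push_cast
        ring
      rw [e]
      refine ⟨by exact_mod_cast hn0, by exact_mod_cast hev.two_dvd, ?_⟩
      rw [Int.toNat_natCast]
      exact hbad)⟩

end Pool.Agent.Results.MP_61161c_nt.WordFieldMultiples
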